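import Pool.Agent.MWGX.StmtsA

/-!
# Row FLX of the table mwgx: exponents around a multiple letter modulo `n`
-/

set_option autoImplicit false

namespace Pool.Agent.MWGX.H10

open Pool.Agent.Helper14_MV Pool.Agent.Helper2_MV Pool.Agent.MWGX
open Pool.Agent.MWGR (X It)

theorem xs (k : ℕ) : X (k + 1) = 0 :: X k := List.replicate_succ

theorem xs' (k : ℕ) : X (k + 1) = X k ++ [0] := List.replicate_succ'

theorem xadd (i j : ℕ) : X (i + j) = X i ++ X j := by
  rw [List.replicate_append_replicate]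

theorem mulA {a : ℕ} {R : List ℕ} (ha : a ∈ R) (u v : List ℕ) :
    2 ≤ (u ++ a :: (v ++ R)).count a := by
  have := List.count_pos_iff.mpr ha
  rw [List.count_append, List.count_cons_self, List.count_append]
  omega

theorem f1 {n : ℕ} {θ : FIC} (hI : It n (RR θ)) {a i j : ℕ} (P R : List ℕ) (hi : 1 ≤ i)
    (hj : 1 ≤ j) (ha : a ∈ R) :
    RR θ (P ++ (X i ++ a :: (X j ++ R))) (P ++ (X (i + n) ++ a :: (X j ++ R))) := by
  obtain ⟨i, rfl⟩ : ∃ k, i = k + 1 := ⟨i - 1, by omega⟩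
  obtain ⟨j, rfl⟩ : ∃ k, j = k + 1 := ⟨j - 1, by omega⟩
  have h := hI (P ++ X i) [] [a] (X j ++ R) 0 (by
    intro c hc
    simp only [List.nil_append, List.mem_singleton] at hc
    subst hc
    have h1 := mulA ha (P ++ X i ++ [0]) (X (j + 1))
    rw [xs j] at h1
    simpa only [List.append_assoc, List.cons_append, List.nil_append] using h1)
  have e1 : P ++ (X (i + 1) ++ a :: (X (j + 1) ++ R)) =
      (P ++ X i) ++ 0 :: ([] ++ ([a] ++ 0 :: (X j ++ R))) := by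
    rw [xs' i, xs j]; simp only [List.append_assoc, List.cons_append, List.nil_append]
  have e2 : P ++ (X (i + 1 + n) ++ a :: (X (j + 1) ++ R)) =
      (P ++ X i) ++ 0 :: ([] ++ (List.replicate n 0 ++ ([a] ++ 0 :: (X j ++ R)))) := by
    rw [xadd, xs' i, xs j]; simp only [List.append_assoc, List.cons_append, List.nil_append]
  rw [e1, e2]
  exact h

theorem f2 {n : ℕ} {θ : FIC} (hI : It n (RR θ)) {a i j : ℕ} (P R : List ℕ) (hi : 1 ≤ i)
    (hj : 1 ≤ j) (ha : a ∈ R) :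
    RR θ (P ++ (X i ++ a :: (X j ++ R))) (P ++ (X i ++ a :: (X (j + n) ++ R))) := by
  obtain ⟨i, rfl⟩ : ∃ k, i = k + 1 := ⟨i - 1, by omega⟩
  obtain ⟨j, rfl⟩ : ∃ k, j = k + 1 := ⟨j - 1, by omega⟩
  have h := hI (P ++ X i) [a] [] (X j ++ R) 0 (by
    intro c hc
    simp only [List.append_nil, List.mem_singleton] at hc
    subst hc
    have h1 := mulA ha (P ++ X i ++ [0]) (X (j + 1))
    rw [xs j] at h1
    simpa only [List.append_assoc, List.cons_append, List.nil_append] using h1)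
  have e1 : P ++ (X (i + 1) ++ a :: (X (j + 1) ++ R)) =
      (P ++ X i) ++ 0 :: ([a] ++ ([] ++ 0 :: (X j ++ R))) := by
    rw [xs' i, xs j]; simp only [List.append_assoc, List.cons_append, List.nil_append]
  have e2 : P ++ (X (i + 1) ++ a :: (X (j + 1 + n) ++ R)) =
      (P ++ X i) ++ 0 :: ([a] ++ (List.replicate n 0 ++ ([] ++ 0 :: (X j ++ R)))) := by
    rw [Nat.add_comm (j + 1) n, xadd n (j + 1), xs' i, xs j]
    simp only [List.append_assoc, List.cons_append, List.nil_append]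
  rw [e1, e2]
  exact h

theorem g1 {n : ℕ} {θ : FIC} (hI : It n (RR θ)) {a i j : ℕ} (P R : List ℕ) (hi : 1 ≤ i)
    (hj : 1 ≤ j) (ha : a ∈ R) : ∀ k : ℕ,
    RR θ (P ++ (X i ++ a :: (X j ++ R))) (P ++ (X (i + n * k) ++ a :: (X j ++ R)))
  | 0 => RR.refl _
  | k + 1 => by
    have h := f1 hI (i := i + n * k) P R (by omega) hj ha
    rw [Nat.mul_succ, ← Nat.add_assoc]
    exact θ.trans (g1 hI P R hi hj ha k) h

theorem g2 {n : ℕ} {θ : FIC} (hI : It n (RR θ)) {a i j : ℕ} (P R : List ℕ) (hi : 1 ≤ i)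
    (hj : 1 ≤ j) (ha : a ∈ R) : ∀ k : ℕ,
    RR θ (P ++ (X i ++ a :: (X j ++ R))) (P ++ (X i ++ a :: (X (j + n * k) ++ R)))
  | 0 => RR.refl _
  | k + 1 => by
    have h := f2 hI (j := j + n * k) P R hi (by omega) ha
    rw [Nat.mul_succ, ← Nat.add_assoc]
    exact θ.trans (g2 hI P R hi hj ha k) h

theorem mod_cases {n i j : ℕ} (h : i ≡ j [MOD n]) :
    (∃ k, j = i + n * k) ∨ ∃ k, i = j + n * k := by
  rcases Nat.le_total i j with h1 | h1
  · left
    obtain ⟨k, hk⟩ := (Nat.modEq_iff_dvd' h1).mp h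
    exact ⟨k, by omega⟩
  · right
    obtain ⟨k, hk⟩ := (Nat.modEq_iff_dvd' h1).mp h.symm
    exact ⟨k, by omega⟩

theorem flx : FlxStmt := by
  intro n θ hI a i j i' j' P R hi hj hi' hj' h1 h2 ha
  have s1 : RR θ (P ++ (X i ++ a :: (X j ++ R))) (P ++ (X i' ++ a :: (X j ++ R))) := by
    rcases mod_cases h1 with ⟨k, rfl⟩ | ⟨k, rfl⟩
    · exact g1 hI P R hi hj ha k
    · exact RR.symm (g1 hI P R hi' hj ha k)
  have s2 : RR θ (P ++ (X i' ++ a :: (X j ++ R))) (P ++ (X i' ++ a :: (X j' ++ R))) := by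
    rcases mod_cases h2 with ⟨k, rfl⟩ | ⟨k, rfl⟩
    · exact g2 hI P R hi' hj ha k
    · exact RR.symm (g2 hI P R hi' hj' ha k)
  exact θ.trans s1 s2

end Pool.Agent.MWGX.H10
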